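import Pool.Agent.H629.TA.Stm

set_option autoImplicit false

/-!
Project TA, task NW: the functionals after one step
-/

namespace Pool.Agent.H322.TA.NW

open Finset Pool.Agent.H629.TA

theorem dbl (k : ℕ) (f : ℕ → ℕ → ℝ) :
    ∑ a ∈ Icc 1 (k + 1), ∑ b ∈ Icc 1 (k + 1), f a b =
      ∑ a ∈ Icc 1 k, ∑ b ∈ Icc 1 k, f a b + ∑ a ∈ Icc 1 k, f a (k + 1) +
        ∑ b ∈ Icc 1 k, f (k + 1) b + f (k + 1) (k + 1) := by
  rw [Finset.sum_Icc_succ_top (by omega)]
  have h1 : ∀ a, ∑ b ∈ Icc 1 (k + 1), f a b = ∑ b ∈ Icc 1 k, f a b + f a (k + 1) := fun a => by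
    rw [Finset.sum_Icc_succ_top (by omega)]
  simp only [h1, Finset.sum_add_distrib]
  ring

theorem wt_old (hU : S_UP) (m k : ℕ) (δ : ℝ) (h : Hist m) (j : Fin m → ℕ) (hk : 2 ≤ k)
    (hj : ∀ l, j l ∈ Icc 1 k) (a : ℕ) (ha : a ∈ Icc 1 k) :
    wt m δ (Function.update h (k + 1) j) (k + 1) a = wt m δ h k a + (cnt j a : ℝ) := by
  obtain ⟨_, _, _, _, h5, _, _⟩ := hU m k h j hk hj
  unfold wt
  rw [h5 a ha]
  push_cast
  ring

theorem wt_new (hU : S_UP) (m k : ℕ) (δ : ℝ) (h : Hist m) (j : Fin m → ℕ) (hk : 2 ≤ k)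
    (hj : ∀ l, j l ∈ Icc 1 k) :
    wt m δ (Function.update h (k + 1) j) (k + 1) (k + 1) = m + δ := by
  obtain ⟨_, _, _, _, _, h6, _⟩ := hU m k h j hk hj
  unfold wt
  rw [h6]

theorem gen (hU : S_UP) (m k : ℕ) (δ : ℝ) (h : Hist m) (j : Fin m → ℕ) (hk : 2 ≤ k)
    (hj : ∀ l, j l ∈ Icc 1 k) (φ g : ℝ → ℝ) (hφ : φ 0 = 0) :
    ∑ a ∈ Icc 1 (k + 1), ∑ b ∈ Icc 1 (k + 1),
      φ (mult m (Function.update h (k + 1) j) a b : ℝ) *
        (g (wt m δ (Function.update h (k + 1) j) (k + 1) a) *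
          g (wt m δ (Function.update h (k + 1) j) (k + 1) b)) =
      ∑ a ∈ Icc 1 k, ∑ b ∈ Icc 1 k, φ (mult m h a b : ℝ) *
        (g (wt m δ h k a + (cnt j a : ℝ)) * g (wt m δ h k b + (cnt j b : ℝ))) +
      2 * g (m + δ) * ∑ a ∈ Icc 1 k, φ (cnt j a : ℝ) * g (wt m δ h k a + (cnt j a : ℝ)) := by
  obtain ⟨_, _, h3, h4, _, _, _⟩ := hU m k h j hk hj
  obtain ⟨h1, h2, _, _, _, _, _⟩ := hU m k (Function.update h (k + 1) j) j hk hj
  rw [dbl]
  have e1 : ∑ a ∈ Icc 1 k, ∑ b ∈ Icc 1 k,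
      φ (mult m (Function.update h (k + 1) j) a b : ℝ) *
        (g (wt m δ (Function.update h (k + 1) j) (k + 1) a) *
          g (wt m δ (Function.update h (k + 1) j) (k + 1) b)) =
      ∑ a ∈ Icc 1 k, ∑ b ∈ Icc 1 k, φ (mult m h a b : ℝ) *
        (g (wt m δ h k a + (cnt j a : ℝ)) * g (wt m δ h k b + (cnt j b : ℝ))) := by
    refine Finset.sum_congr rfl fun a ha => Finset.sum_congr rfl fun b hb => ?_
    rw [h3 a ha b hb, wt_old hU m k δ h j hk hj a ha, wt_old hU m k δ h j hk hj b hb]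
  have e2 : ∑ a ∈ Icc 1 k,
      φ (mult m (Function.update h (k + 1) j) a (k + 1) : ℝ) *
        (g (wt m δ (Function.update h (k + 1) j) (k + 1) a) *
          g (wt m δ (Function.update h (k + 1) j) (k + 1) (k + 1))) =
      g (m + δ) * ∑ a ∈ Icc 1 k, φ (cnt j a : ℝ) * g (wt m δ h k a + (cnt j a : ℝ)) := by
    rw [Finset.mul_sum]
    refine Finset.sum_congr rfl fun a ha => ?_
    rw [h4 a ha, wt_old hU m k δ h j hk hj a ha, wt_new hU m k δ h j hk hj]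
    ring
  have e3 : ∑ b ∈ Icc 1 k,
      φ (mult m (Function.update h (k + 1) j) (k + 1) b : ℝ) *
        (g (wt m δ (Function.update h (k + 1) j) (k + 1) (k + 1)) *
          g (wt m δ (Function.update h (k + 1) j) (k + 1) b)) =
      g (m + δ) * ∑ a ∈ Icc 1 k, φ (cnt j a : ℝ) * g (wt m δ h k a + (cnt j a : ℝ)) := by
    rw [Finset.mul_sum]
    refine Finset.sum_congr rfl fun a ha => ?_
    rw [h1 (k + 1) a, h4 a ha, wt_old hU m k δ h j hk hj a ha, wt_new hU m k δ h j hk hj]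
    ring
  rw [e1, e2, e3, h2 (k + 1), Nat.cast_zero, hφ]
  ring

theorem t_NW : S_UP → S_NW := by
  intro hU m k δ h j hk hj
  refine ⟨?_, ?_, ?_, ?_, ?_⟩
  · unfold S2
    rw [Finset.sum_Icc_succ_top (by omega), wt_new hU m k δ h j hk hj]
    congr 1
    exact Finset.sum_congr rfl fun a ha => by rw [wt_old hU m k δ h j hk hj a ha]
  · unfold S3
    rw [Finset.sum_Icc_succ_top (by omega), wt_new hU m k δ h j hk hj]
    congr 1
    exact Finset.sum_congr rfl fun a ha => by rw [wt_old hU m k δ h j hk hj a ha]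
  · unfold WW
    have h1 := gen hU m k δ h j hk hj (fun t => t) (fun t => t) rfl
    rw [h1]
    ring
  · unfold VV
    have h1 := gen hU m k δ h j hk hj (fun t => t) (fun t => t * (t + 1)) rfl
    rw [h1]
  · unfold QQ
    have h1 := gen hU m k δ h j hk hj (fun t => t * (t - 1)) (fun t => t) (by simp)
    rw [h1]

end Pool.Agent.H322.TA.NW
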